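import Pool.Agent.KS6_67.HW.Tensor

set_option autoImplicit false
open PowerSeries

/-!
Every extension of the two-generated fractional ideal `M D` by itself splits.
-/

namespace Pool.Agent.KS6_67.HW

noncomputable section

universe u w

variable {𝕂 : Type u} [Field 𝕂]

variable {G : ℕ → Prop} {φ x B : ℕ}

/-! ### Self-extensions split -/

variable (G x) in
/-- Exponents of `M + X ^ x M`. -/
def E2 (n : ℕ) : Prop := E G x n ∨ ∃ m, m + 2 * x = n ∧ G m

/-- The key duality argument. -/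
theorem key (D : Data 𝕂 G φ x B) (n : ℕ)
    (h : ∀ a, F G x a → φ + 1 ≤ n + a ∧ E G x (n + a - (φ + 1))) :
    φ + 1 ≤ n ∧ E2 G x (n - (φ + 1)) := by
  by_contra hcon
  by_cases hbig : φ + (φ + 1) < n
  · exact hcon ⟨by omega, Or.inl (Or.inl (D.big _ (by omega)))⟩
  obtain ⟨k0, hk0⟩ : ∃ k0, k0 + n = φ + (φ + 1) := ⟨φ + (φ + 1) - n, by omega⟩
  have c0 : G k0 := by
    by_cases h1 : φ < k0
    · exact D.big _ h1
    · rw [D.symm k0 (by omega)]
      intro h2
      apply hcon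
      have h3 : φ - k0 = n - (φ + 1) := by omega
      rw [h3] at h2
      exact ⟨by omega, Or.inl (Or.inl h2)⟩
  have c1 : G (k0 + x) := by
    by_cases h1 : φ < k0 + x
    · exact D.big _ h1
    · rw [D.symm (k0 + x) (by omega)]
      intro h2
      apply hcon
      exact ⟨by omega, Or.inl (Or.inr ⟨φ - (k0 + x), by omega, h2⟩)⟩
  have c2 : G (k0 + 2 * x) := by
    by_cases h1 : φ < k0 + 2 * x
    · exact D.big _ h1
    · rw [D.symm (k0 + 2 * x) (by omega)]
      intro h2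
      apply hcon
      exact ⟨by omega, Or.inr ⟨φ - (k0 + 2 * x), by omega, h2⟩⟩
  obtain ⟨j, k, hjk, -, b1, b2, b3, b4⟩ := D.prod k0 c0 c1 c2
  obtain ⟨h1, h2⟩ := h j ⟨b1, b2⟩
  have hkφ : k ≤ φ := by omega
  have h3 : n + j - (φ + 1) = φ - k := by omega
  rw [h3] at h2
  rcases h2 with h2 | ⟨m, hm, h2⟩
  · exact (D.symm k hkφ).mp b3 h2
  · have hkx : k + x ≤ φ := by omega
    have h4 : m = φ - (k + x) := by omega
    rw [h4] at h2
    exact (D.symm (k + x) hkx).mp b4 h2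

/-- an element of the dual ideal as an element of the ring -/
def b0 (D : Data 𝕂 G φ x B) (c : FI D) : R D := ⟨(c : V 𝕂), Sup.mono (fun _ h => h.1) c.2⟩

/-- `X ^ x` times an element of the dual ideal as an element of the ring -/
def bx (D : Data 𝕂 G φ x B) (c : FI D) : R D := ⟨X ^ x * (c : V 𝕂), Sup.X_mul x (fun _ h => h.2) c.2⟩

theorem b0_val (D : Data 𝕂 G φ x B) (c : FI D) : ((b0 D c : R D) : V 𝕂) = (c : V 𝕂) := rfl

theorem bx_val (D : Data 𝕂 G φ x B) (c : FI D) : ((bx D c : R D) : V 𝕂) = X ^ x * (c : V 𝕂) := rfl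

/-- a monomial of the dual ideal -/
def mF (D : Data 𝕂 G φ x B) (a : ℕ) (ha : F G x a) : FI D := ⟨X ^ a, Sup.X_pow _ _ ha⟩

theorem mF_val (D : Data 𝕂 G φ x B) (a : ℕ) (ha : F G x a) : ((mF D a ha : FI D) : V 𝕂) = X ^ a := rfl

theorem F_big (D : Data 𝕂 G φ x B) : F G x (φ + 1) := ⟨D.big _ (by omega), D.big _ (by omega)⟩

theorem supp_delta (D : Data 𝕂 G φ x B) (d : V 𝕂) (δ : FI D → M D)
    (hrel : ∀ c : FI D, (c : V 𝕂) * d = X ^ (φ + 1) * (δ c : V 𝕂)) (n : ℕ) (hn : coeff n d ≠ 0) :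
    φ + 1 ≤ n ∧ E2 G x (n - (φ + 1)) := by
  apply key D n
  intro a ha
  have h1 := hrel (mF D a ha)
  have h2 := congrArg (coeff (n + a)) h1
  rw [mF_val, coeff_X_pow_mul, coeff_X_pow_mul'] at h2
  by_cases h3 : φ + 1 ≤ n + a
  · rw [if_pos h3] at h2
    refine ⟨h3, ?_⟩
    by_contra h4
    rw [(δ _).2 _ h4] at h2
    exact hn h2
  · rw [if_neg h3] at h2
    exact absurd h2 hn

theorem exists_q (D : Data 𝕂 G φ x B) (d : V 𝕂)
    (hsupp : ∀ n, coeff n d ≠ 0 → φ + 1 ≤ n ∧ E2 G x (n - (φ + 1))) :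
    ∃ q1 q2 : M D, d = X ^ (φ + 1) * ((q1 : V 𝕂) + X ^ x * (q2 : V 𝕂)) := by
  classical
  obtain ⟨q, hq⟩ : ∃ q : V 𝕂, q = pick (fun _ => True) (φ + 1) d := ⟨_, rfl⟩
  have hdq : d = X ^ (φ + 1) * q := by
    ext n
    rw [hq, coeff_pick]
    by_cases h1 : coeff n d = 0
    · rw [h1]; split_ifs <;> rfl
    · rw [if_pos ⟨(hsupp n h1).1, trivial⟩]
  have hqs : Sup (E2 G x) q := by
    intro n hn
    have h0 : coeff n q = coeff (n + (φ + 1)) d := by
      rw [hq, pick, coeff_mk, if_pos trivial]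
    rw [h0]
    by_contra h1
    apply hn
    have h2 := (hsupp _ h1).2
    rwa [Nat.add_sub_cancel] at h2
  have hq1 : Sup (E G x) (pick (E G x) 0 q) := sup_pick _ _ _ _ (fun n h => h)
  have hq2 : Sup (E G x) (pick (fun n => ¬ E G x n ∧ E2 G x n) x q) := by
    refine sup_pick _ _ _ _ ?_
    rintro n ⟨h1, h2⟩
    rcases h2 with h2 | ⟨m, hm, h2⟩
    · exact absurd h2 h1
    · exact Or.inr ⟨m, by omega, h2⟩
  refine ⟨⟨_, hq1⟩, ⟨_, hq2⟩, ?_⟩
  rw [hdq]
  congr 1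
  change q = pick (E G x) 0 q + X ^ x * pick (fun n => ¬ E G x n ∧ E2 G x n) x q
  have h0 : pick (E G x) 0 q = X ^ 0 * pick (E G x) 0 q := by rw [pow_zero, one_mul]
  rw [h0]
  ext n
  rw [map_add, coeff_pick, coeff_pick]
  by_cases h1 : E G x n
  · rw [if_pos ⟨Nat.zero_le _, h1⟩, if_neg (fun h => h.2.1 h1), add_zero]
  · rw [if_neg (fun h => h1 h.2), zero_add]
    by_cases h2 : E2 G x n
    · have hxn : x ≤ n := by
        rcases h2 with h2 | ⟨m, hm, -⟩
        · exact absurd h2 h1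
        · omega
      rw [if_pos ⟨hxn, h1, h2⟩]
    · rw [if_neg (fun h => h2 h.2.2)]
      exact hqs n h2

theorem exists_section {A P N W : Type*} [CommRing A] [AddCommGroup P] [AddCommGroup N]
    [AddCommGroup W] [Module A P] [Module A N] [Module A W] (π : P →ₗ[A] N) (ρ : P →ₗ[A] W)
    (g : W →ₗ[A] N) (hπ : Function.Surjective π) (hker : LinearMap.ker π ≤ LinearMap.ker ρ)
    (hg : ∀ p, g (ρ p) = π p) : ∃ s : N →ₗ[A] W, g.comp s = LinearMap.id := by
  refine ⟨(LinearMap.ker π).liftQ ρ hker ∘ₗ (π.quotKerEquivOfSurjective hπ).symm.toLinearMap, ?_⟩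
  apply LinearMap.ext
  intro m
  obtain ⟨p, rfl⟩ := hπ m
  have h1 : (π.quotKerEquivOfSurjective hπ).symm (π p) = Submodule.Quotient.mk p := by
    rw [LinearEquiv.symm_apply_eq]
    rfl
  change g ((LinearMap.ker π).liftQ ρ hker ((π.quotKerEquivOfSurjective hπ).symm (π p))) = π p
  rw [h1, Submodule.liftQ_apply]
  exact hg p

theorem rel_to_F (D : Data 𝕂 G φ x B) (r t : R D) (h : r • u0 D + t • ux D = 0) :
    ∃ c : FI D, b0 D c = t ∧ bx D c = -r := by
  have h2 : (r : V 𝕂) * 1 + (t : V 𝕂) * X ^ x = 0 := congrArg Subtype.val h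
  have h3 : (r : V 𝕂) = -(X ^ x * (t : V 𝕂)) := by linear_combination h2
  have ht : Sup (F G x) (t : V 𝕂) := by
    intro n hn
    by_cases h4 : G n
    · have h5 := r.2 (n + x) (fun h => hn ⟨h4, h⟩)
      rw [h3, map_neg, coeff_X_pow_mul] at h5
      exact neg_eq_zero.mp h5
    · exact t.2 n h4
  refine ⟨⟨(t : V 𝕂), ht⟩, Subtype.ext rfl, ?_⟩
  apply Subtype.ext
  change X ^ x * (t : V 𝕂) = -(r : V 𝕂)
  rw [h3, neg_neg]

theorem section_exists (D : Data 𝕂 G φ x B) (W : Type w) [AddCommGroup W] [Module (R D) W]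
    (g : W →ₗ[R D] M D) (e1 e2 : W) (he1 : g e1 = u0 D) (he2 : g e2 = ux D)
    (hrel : ∀ c : FI D, b0 D c • e2 = bx D c • e1) :
    ∃ s : M D →ₗ[R D] W, g.comp s = LinearMap.id := by
  refine exists_section (A := R D) (P := R D × R D) (N := M D) (W := W)
    ((LinearMap.toSpanSingleton (R D) (M D) (u0 D)).coprod
      (LinearMap.toSpanSingleton (R D) (M D) (ux D)))
    ((LinearMap.toSpanSingleton (R D) W e1).coprod (LinearMap.toSpanSingleton (R D) W e2))
    g ?_ ?_ ?_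
  · intro m
    obtain ⟨r, t, h⟩ := exists_decomp D m
    refine ⟨(r, t), ?_⟩
    rw [LinearMap.coprod_apply, LinearMap.toSpanSingleton_apply, LinearMap.toSpanSingleton_apply]
    exact h.symm
  · rintro ⟨r, t⟩ h
    rw [LinearMap.mem_ker, LinearMap.coprod_apply, LinearMap.toSpanSingleton_apply,
      LinearMap.toSpanSingleton_apply] at h ⊢
    obtain ⟨c, hc1, hc2⟩ := rel_to_F D r t h
    have h6 := hrel c
    rw [hc1, hc2] at h6
    change r • e1 + t • e2 = 0
    rw [h6, neg_smul, add_neg_cancel]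
  · rintro ⟨r, t⟩
    rw [LinearMap.coprod_apply, LinearMap.coprod_apply, LinearMap.toSpanSingleton_apply,
      LinearMap.toSpanSingleton_apply, LinearMap.toSpanSingleton_apply,
      LinearMap.toSpanSingleton_apply, map_add, map_smul, map_smul, he1, he2]

theorem delta_exists (D : Data 𝕂 G φ x B) (W : Type w) [AddCommGroup W] [Module (R D) W]
    (f : M D →ₗ[R D] W) (g : W →ₗ[R D] M D)
    (hfg : LinearMap.range f = LinearMap.ker g) (e1 e2 : W) (he1 : g e1 = u0 D)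
    (he2 : g e2 = ux D) : ∃ δ : FI D → M D, ∀ c, f (δ c) = b0 D c • e2 - bx D c • e1 := by
  have hδ : ∀ c : FI D, ∃ m : M D, f m = b0 D c • e2 - bx D c • e1 := by
    intro c
    have h1 : b0 D c • e2 - bx D c • e1 ∈ LinearMap.ker g := by
      rw [LinearMap.mem_ker, map_sub, map_smul, map_smul, he1, he2]
      apply Subtype.ext
      change (c : V 𝕂) * X ^ x - X ^ x * (c : V 𝕂) * 1 = 0
      ring
    rw [← hfg] at h1
    exact h1
  choose δ hδ using hδ
  exact ⟨δ, hδ⟩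

theorem delta_rel (D : Data 𝕂 G φ x B) (W : Type w) [AddCommGroup W] [Module (R D) W]
    (f : M D →ₗ[R D] W) (hf : Function.Injective f) (e1 e2 : W)
    (δ : FI D → M D) (hδ : ∀ c, f (δ c) = b0 D c • e2 - bx D c • e1) (c c' : FI D) :
    (c : V 𝕂) * (δ c' : V 𝕂) = (c' : V 𝕂) * (δ c : V 𝕂) := by
  have h1 : f (b0 D c • δ c') = f (b0 D c' • δ c) := by
    rw [map_smul, map_smul, hδ, hδ, smul_sub, smul_sub, smul_smul, smul_smul, smul_smul,
      smul_smul]
    have e1' : b0 D c * b0 D c' = b0 D c' * b0 D c := mul_comm _ _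
    have e2' : b0 D c * bx D c' = b0 D c' * bx D c := by
      apply Subtype.ext
      change (c : V 𝕂) * (X ^ x * (c' : V 𝕂)) = (c' : V 𝕂) * (X ^ x * (c : V 𝕂))
      ring
    rw [e1', e2']
  exact congrArg Subtype.val (hf h1)

theorem delta_form (D : Data 𝕂 G φ x B) (δ : FI D → M D)
    (hrel : ∀ c c' : FI D, (c : V 𝕂) * (δ c' : V 𝕂) = (c' : V 𝕂) * (δ c : V 𝕂)) :
    ∃ q1 q2 : M D, ∀ c, δ c = b0 D c • q1 + bx D c • q2 := by
  have h0 : ∀ c : FI D, (c : V 𝕂) * (δ (mF D (φ + 1) (F_big D)) : V 𝕂) = X ^ (φ + 1) * (δ c : V 𝕂) :=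
    fun c => hrel c _
  obtain ⟨q1, q2, hq⟩ := exists_q D (δ (mF D (φ + 1) (F_big D)) : V 𝕂) (supp_delta D _ δ h0)
  refine ⟨q1, q2, fun c => ?_⟩
  apply Subtype.ext
  change (δ c : V 𝕂) = (c : V 𝕂) * (q1 : V 𝕂) + (X ^ x * (c : V 𝕂)) * (q2 : V 𝕂)
  have h1 := h0 c
  rw [hq] at h1
  apply mul_left_cancel₀ (pow_ne_zero (φ + 1) (X_ne_zero (R := 𝕂)))
  rw [← h1]; ring

/-- Every extension of `M` by itself splits. -/
theorem ext_split (D : Data 𝕂 G φ x B) (W : Type w) [AddCommGroup W] [Module (R D) W]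
    (f : M D →ₗ[R D] W) (g : W →ₗ[R D] M D) (hf : Function.Injective f)
    (hg : Function.Surjective g) (hfg : LinearMap.range f = LinearMap.ker g) :
    ∃ s : M D →ₗ[R D] W, g.comp s = LinearMap.id := by
  obtain ⟨e1, he1⟩ := hg (u0 D)
  obtain ⟨e2, he2⟩ := hg (ux D)
  obtain ⟨δ, hδ⟩ := delta_exists D W f g hfg e1 e2 he1 he2
  obtain ⟨q1, q2, hq⟩ := delta_form D δ (fun c c' => delta_rel D W f hf e1 e2 δ hδ c c')
  have hgf : ∀ m, g (f m) = 0 := by
    intro m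
    have : f m ∈ LinearMap.ker g := by rw [← hfg]; exact ⟨m, rfl⟩
    exact this
  refine section_exists D W g (e1 + f q2) (e2 - f q1) ?_ ?_ ?_
  · rw [map_add, hgf, add_zero, he1]
  · rw [map_sub, hgf]
    exact (sub_zero (g e2)).trans he2
  · intro c
    have h1 := hδ c
    rw [hq c, map_add, map_smul, map_smul] at h1
    rw [smul_sub, smul_add]
    have h2 : b0 D c • e2 = b0 D c • f q1 + bx D c • f q2 + bx D c • e1 := by
      rw [h1]; abel
    rw [h2]; abel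

end

end Pool.Agent.KS6_67.HW
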